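import Pool.Agent.Run7.h582.FM.Tcls
import Pool.Agent.Run7.h582.FM.De1
import Pool.Agent.Run7.h582.FM.Es3
import Pool.Agent.Run7.h927.SV.B

set_option autoImplicit false
set_option maxHeartbeats 4000000

/-!
The distributions of the integer parts of the members of the families which replace a measure with polynomial Fourier decay:
they form a class to which the sieve of helper927 (`Siev`) applies.
-/

namespace Pool.Agent.Run7.h582.MC

open Finset Filter MeasureTheory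
open Pool.Agent.H469R2.NK (e norm_e e_add)
open Pool.Agent.H807R2.Dav (ee norm_ee ee_add)
open Pool.Agent.Run7.h844.RP (RC RS disR disR_sum)
open Pool.Agent.Run7.h582.FM

/-- the class of distributions -/
def MC (C δ : ℝ) (A : ℕ) (k : ℕ) (p : ℕ → ℝ) : Prop :=
  ∃ (ι : Type) (s : Finset ι) (y : ι → ℝ), s.Nonempty ∧ (∀ i ∈ s, 0 ≤ y i ∧ y i < 2 ^ k) ∧
    (∀ t : ℝ, t ≠ 0 → |t| ≤ 2 ^ k / 8 → ‖∑ i ∈ s, e (t * y i)‖ ≤ s.card * (C * (|t| * 2 ^ k) ^ (-δ) + 8 / 2 ^ k)) ∧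
    (∀ α : ℝ, ‖∑ i ∈ s, ee (α * ⌊y i⌋)‖ ^ A * (2 ^ k * |α - round α|) ≤ (32 * s.card) ^ A) ∧ p = disR s y

lemma MC.rc {C δ : ℝ} {A : ℕ} (V : ℕ) : ∃ k₀ : ℕ, ∀ k : ℕ, k₀ ≤ k → ∀ p, MC C δ A k p → RC 1 δ V k p := by
  have h1 : ∀ᶠ k : ℕ in atTop, C ≤ k ∧ 8 * (k : ℝ) ^ V ≤ 2 ^ k := by
    have h2 := (isLittleO_pow_const_const_pow_of_one_lt (R := ℝ) V (by norm_num : (1 : ℝ) < 2)).bound
      (show (0 : ℝ) < 1 / 8 by norm_num)
    filter_upwards [tendsto_natCast_atTop_atTop.eventually_ge_atTop C, h2] with k h3 h4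
    rw [Real.norm_of_nonneg (by positivity), Real.norm_of_nonneg (by positivity)] at h4
    exact ⟨h3, by linarith⟩
  obtain ⟨k₀, hk₀⟩ := eventually_atTop.1 h1
  refine ⟨k₀ + 1, fun k hk p => ?_⟩
  rintro ⟨ι, s, y, hs, hy, h2, _, rfl⟩
  obtain ⟨h3, h4⟩ := hk₀ k (by omega)
  have hk0 : (0 : ℝ) < k := by exact_mod_cast (by omega : 0 < k)
  refine ⟨ι, s, y, hs, hy, ?_, rfl⟩
  intro t ht0 ht
  have h5 : |t| ≤ 2 ^ k / 8 := by linarith
  refine (h2 t ht0 h5).trans ?_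
  apply mul_le_mul_of_nonneg_left _ (Nat.cast_nonneg _)
  apply add_le_add
  · rw [pow_one]
    exact mul_le_mul_of_nonneg_right h3 (by positivity)
  · rw [div_le_div_iff₀ (by positivity) (by positivity), one_mul]
    exact h4

lemma MC.rc0 {C δ : ℝ} {A k : ℕ} {p : ℕ → ℝ} (h : MC C δ A k p) : RC 1 δ 0 k p := by
  obtain ⟨ι, s, y, hs, hy, _, _, rfl⟩ := h
  refine ⟨ι, s, y, hs, hy, ?_, rfl⟩
  intro t _ _
  have h1 : ‖∑ i ∈ s, e (t * y i)‖ ≤ s.card := by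
    refine (norm_sum_le _ _).trans ?_
    simp [norm_e]
  have h2 : 0 ≤ (k : ℝ) ^ 1 * (|t| * 2 ^ k) ^ (-δ) := by positivity
  have h3 : (0 : ℝ) ≤ s.card := Nat.cast_nonneg _
  rw [pow_zero, div_one]
  nlinarith

lemma round_far {a Q : ℕ} (ha : 1 ≤ a) (haQ : a < Q) : 1 / (Q : ℝ) ≤ |(a : ℝ) / Q - round ((a : ℝ) / Q)| := by
  have hQ0 : (0 : ℝ) < Q := by exact_mod_cast (by omega : 0 < Q)
  obtain ⟨z, hz⟩ : ∃ z : ℤ, z = round ((a : ℝ) / Q) := ⟨_, rfl⟩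
  rw [← hz]
  have e1 : (a : ℝ) / Q - z = (((a : ℤ) - Q * z : ℤ) : ℝ) / Q := by
    push_cast
    field_simp
  rw [e1, abs_div, abs_of_pos hQ0]
  apply div_le_div_of_nonneg_right _ hQ0.le
  have h1 : (a : ℤ) - Q * z ≠ 0 := by
    intro h
    have h2 : (Q : ℤ) ∣ a := ⟨z, by linarith⟩
    have h3 : Q ∣ a := by exact_mod_cast h2
    have := Nat.le_of_dvd (by omega) h3
    omega
  have h2 : (1 : ℤ) ≤ |(a : ℤ) - Q * z| := Int.one_le_abs h1
  exact_mod_cast h2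

/-- **the class is in the range of the sieve** -/
theorem mc_siev (C δ : ℝ) (hδ : 0 < δ) (A : ℕ) (hA : 1 ≤ A) : Pool.Agent.Run7.h927.SV.Siev 2 (5 * A + 1) (MC C δ A) := by
  refine ⟨le_rfl, by omega, fun k p h => (MC.rc0 h).nonneg, fun k p h => (MC.rc0 h).sum, ?_, fun κ hκ => ?_⟩
  · have hA0 : (0 : ℝ) < A := by exact_mod_cast hA
    refine ⟨0, (2 : ℝ) ^ (-(1 / (A : ℝ))), by positivity, ?_, ?_⟩
    · apply Real.rpow_lt_one_of_one_lt_of_neg (by norm_num)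
      rw [neg_lt_zero]
      positivity
    intro k p hp S hS m hm hQm hL a ha haQ
    obtain ⟨ι, s, y, hs, hy, _, hch, rfl⟩ := hp
    obtain ⟨Q, hQ⟩ : ∃ Q : ℕ, Q = ∏ q ∈ S, q := ⟨_, rfl⟩
    rw [← hQ] at hQm haQ ⊢
    have hc0 : (0 : ℝ) < s.card := by exact_mod_cast hs.card_pos
    have hQ0 : (0 : ℝ) < Q := by exact_mod_cast (by omega : 0 < Q)
    obtain ⟨j, hj⟩ : ∃ j, j = k / m := ⟨_, rfl⟩
    rw [← hj] at hL ⊢
    have hjm : j * m ≤ k := by rw [hj]; exact Nat.div_mul_le_self k m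
    have e1 : ∑ v ∈ range (2 ^ k), (disR s y v : ℂ) * ee (v * ((a : ℝ) / (Q : ℝ))) =
        (1 / (s.card : ℂ)) * ∑ i ∈ s, ee ((a : ℝ) / Q * ⌊y i⌋) := by
      have h1 := disR_sum s y (2 ^ k) (by positivity) (fun i hi => by push_cast; exact (hy i hi).2)
        (fun v => ee (v * ((a : ℝ) / (Q : ℝ))))
      rw [h1]
      congr 1
      apply sum_congr rfl
      intro i hi
      have h2 : ((⌊y i⌋₊ : ℕ) : ℝ) = (⌊y i⌋ : ℝ) := by
        rw [natCast_floor_eq_intCast_floor (hy i hi).1]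
      rw [h2, mul_comm]
    rw [e1, norm_mul, norm_div, norm_one, Complex.norm_natCast]
    obtain ⟨F, hF⟩ : ∃ F, F = ‖∑ i ∈ s, ee ((a : ℝ) / Q * ⌊y i⌋)‖ := ⟨_, rfl⟩
    have h3 := hch ((a : ℝ) / Q)
    rw [← hF] at h3 ⊢
    have hF0 : 0 ≤ F := by rw [hF]; exact norm_nonneg _
    have h4 := round_far ha haQ
    have h5 : (2 : ℝ) ^ (k - m) ≤ 2 ^ k * |(a : ℝ) / Q - round ((a : ℝ) / Q)| := by
      have hmk : m ≤ k := by nlinarith [hjm, hL, hm]
      have h6 : (Q : ℝ) ≤ 2 ^ m := by exact_mod_cast hQm.le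
      have h7 : (2 : ℝ) ^ k = 2 ^ (k - m) * 2 ^ m := by rw [← pow_add, Nat.sub_add_cancel hmk]
      calc (2 : ℝ) ^ (k - m) = 2 ^ k * (1 / 2 ^ m) := by rw [h7]; field_simp
        _ ≤ 2 ^ k * (1 / Q) := by
          apply mul_le_mul_of_nonneg_left _ (by positivity)
          exact one_div_le_one_div_of_le hQ0 h6
        _ ≤ _ := mul_le_mul_of_nonneg_left h4 (by positivity)
    have h6 : (F / s.card) ^ A * 2 ^ (k - m) ≤ 32 ^ A := by
      have h7 : F ^ A * 2 ^ (k - m) ≤ (32 * s.card) ^ A :=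
        (mul_le_mul_of_nonneg_left h5 (by positivity)).trans h3
      rw [div_pow, div_mul_eq_mul_div, div_le_iff₀ (by positivity), ← mul_pow]
      exact h7
    have h7 : (F / s.card) ^ A ≤ (((2 : ℝ) ^ (-(1 / (A : ℝ)))) ^ (j - (5 * A + 1))) ^ A := by
      have e2 : (((2 : ℝ) ^ (-(1 / (A : ℝ)))) ^ (j - (5 * A + 1))) ^ A = 1 / 2 ^ (j - (5 * A + 1)) := by
        rw [← pow_mul, mul_comm, pow_mul, ← Real.rpow_natCast ((2 : ℝ) ^ (-(1 / (A : ℝ)))) A, ← Real.rpow_mul (by norm_num)]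
        have e3 : -(1 / (A : ℝ)) * A = -1 := by field_simp
        rw [e3, Real.rpow_neg_one, ← one_div, one_div_pow]
      rw [e2, le_div_iff₀ (by positivity)]
      have h8 : (2 : ℝ) ^ (j - (5 * A + 1)) * 32 ^ A ≤ 2 ^ (k - m) := by
        have e4 : (32 : ℝ) ^ A = 2 ^ (5 * A) := by rw [pow_mul]; norm_num
        rw [e4, ← pow_add]
        apply pow_le_pow_right₀ (by norm_num)
        have h9 : (j - 1) * 1 ≤ (j - 1) * m := Nat.mul_le_mul_left _ hm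
        have h10 : (j - 1) * m = j * m - m := by rw [Nat.sub_mul, one_mul]
        omega
      have h9 : (F / s.card) ^ A * 2 ^ (j - (5 * A + 1)) * 32 ^ A ≤ 1 * 32 ^ A := by
        calc _ = (F / s.card) ^ A * (2 ^ (j - (5 * A + 1)) * 32 ^ A) := by ring
          _ ≤ (F / s.card) ^ A * 2 ^ (k - m) := mul_le_mul_of_nonneg_left h8 (by positivity)
          _ ≤ 32 ^ A := h6
          _ = 1 * 32 ^ A := (one_mul _).symm
      exact le_of_mul_le_mul_right h9 (by positivity)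
    have h8 := le_of_pow_le_pow_left₀ (by omega) (by positivity) h7
    rw [pow_zero, one_mul, one_div, inv_mul_eq_div]
    exact h8
  · exact tcls_ofR 1 δ hδ κ hκ _ (fun k p h => MC.rc0 h) (fun V => MC.rc V)

end Pool.Agent.Run7.h582.MC
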