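import Pool.Agent.Run7.h582.MC.MC1
import Pool.Agent.Run7.h844.RP.Main

set_option autoImplicit false
set_option maxHeartbeats 4000000

/-!
The measure of the set of the exceptional `x` at one scale, in terms of the distributions in the class `MC`.
-/

namespace Pool.Agent.Run7.h582.MC

open Finset Filter MeasureTheory
open Pool.Agent.H469R2.NK (e norm_e e_add)
open Pool.Agent.H807R2.Dav (ee norm_ee ee_add)
open Pool.Agent.Run7.h844.RP (RC RS disR disR_sum count_disR)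
open Pool.Agent.Run7.h582.FM
open Pool.Agent.N794.CG (Scale scale_of)

open Classical in
/-- **the measure of the exceptional set** -/
theorem meas_mc (μ : Measure ℝ) (hμ : Decay μ) : ∃ (C δ : ℝ) (A : ℕ) (R₀ M : ℝ), 0 < δ ∧ 1 ≤ A ∧ 1 ≤ R₀ ∧ 0 < M ∧
    ∀ (lam c : ℝ), 1 ≤ lam → ∀ (D : ℕ) (P : ℤ → Prop) (β : ℝ), 0 ≤ β →
    (∀ k : ℕ, lam ≤ 2 ^ k → (2 : ℝ) ^ k ≤ R₀ * lam → ∀ p, MC C δ A k p → ∀ Z : ℤ, |(Z : ℝ)| ≤ |c| + R₀ * lam + D →
      ∑ v ∈ range (2 ^ k), (if P (Z + (v : ℕ)) then 0 else p v) ≤ β) →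
    μ.real {x | ¬ ∀ q : ℤ, |(q : ℝ) - (lam * x + c)| ≤ D → P q} ≤ M * ((2 * D + 5) * β + 1 / lam) := by
  have hfin : IsFiniteMeasure μ := hμ.1
  by_cases hne : μ Set.univ = 0
  · rw [Measure.measure_univ_eq_zero.1 hne]
    refine ⟨1, 1, 1, 1, 1, one_pos, le_rfl, le_rfl, one_pos, fun lam c hlam D P β hβ0 hP => ?_⟩
    have hβ : 0 ≤ (2 * (D : ℝ) + 5) * β + 1 / lam := by positivity
    simp only [Measure.real, Measure.coe_zero, Pi.zero_apply, ENNReal.toReal_zero, one_mul]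
    exact hβ
  obtain ⟨R, C, δ, ν, hR1, hδ, hδ1, hνp, hν01, hdec, hreal⟩ := normalise μ hμ hne
  obtain ⟨A, hA1, hA⟩ := hasCls_ch C δ hδ
  have hμ0 : 0 < μ.real Set.univ := by
    unfold Measure.real
    exact ENNReal.toReal_pos hne (measure_ne_top μ _)
  refine ⟨2 * (|C| * 8 ^ δ), δ, A, 16 * R, μ.real Set.univ, hδ, hA1, by linarith, hμ0, fun lam c hlam D P β hβ0 hP => ?_⟩
  have hlamR1 : 1 ≤ 2 * R * lam := by nlinarith
  obtain ⟨k, hk⟩ : ∃ k, k = Nat.log 2 ⌊2 * R * lam⌋₊ := ⟨_, rfl⟩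
  have hsc : Scale k (2 * R * lam) := by
    rw [hk]
    exact scale_of _ hlamR1
  obtain ⟨lam', hlam'⟩ : ∃ lam', lam' = 2 * R * lam := ⟨_, rfl⟩
  rw [← hlam'] at hsc hlamR1
  obtain ⟨hlow, hhigh⟩ := hsc
  have hlam0 : 0 < lam' := by linarith
  have h2k : (1 : ℝ) ≤ 2 ^ k := one_le_pow₀ (by norm_num)
  have h2k0 : (0 : ℝ) < 2 ^ k := by linarith
  have hRlam : lam ≤ R * lam := by nlinarith
  have hlamk : lam ≤ 2 ^ k := by
    rw [pow_succ] at hhigh
    nlinarith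
  obtain ⟨z', hz'⟩ : ∃ z', z' = c - R * lam := ⟨_, rfl⟩
  obtain ⟨N, hN⟩ : ∃ N : ℕ, N = ⌊lam'⌋₊ + 2 := ⟨_, rfl⟩
  have hfr0 := Int.fract_nonneg z'
  have hfr1 := Int.fract_lt_one z'
  have hN1 : lam' + |Int.fract z'| < N := by
    rw [hN, abs_of_nonneg hfr0]
    have := Nat.lt_floor_add_one lam'
    push_cast
    linarith
  have hN2 : (N : ℝ) ≤ lam' + 2 := by
    rw [hN]
    push_cast
    have := Nat.floor_le hlam0.le
    linarith
  obtain ⟨ι, u, y, hu, hyN, hsum, hfam⟩ := fam_meas ν hν01 ((2 : ℝ) ^ k) h2k N lam' (Int.fract z') hlam0 hN1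
  have hu0 : (0 : ℝ) < u.card := by exact_mod_cast hu.card_pos
  have hpow : (2 : ℝ) ^ (k + 3) = 8 * 2 ^ k := by rw [pow_add]; norm_num; ring
  -- the distribution
  have hY : ∀ i ∈ u, 0 ≤ y i + N ∧ y i + N < 2 ^ (k + 3) := by
    intro i hi
    have h1 := abs_le.1 (hyN i hi)
    rw [hpow]
    rw [pow_succ] at hhigh
    constructor
    · linarith [h1.1]
    · linarith [h1.2]
  have hmc : MC (2 * (|C| * 8 ^ δ)) δ A (k + 3) (disR u (fun i => y i + N)) := by
    refine ⟨ι, u, fun i => y i + N, hu, hY, ?_, ?_, rfl⟩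
    · intro t ht0 ht
      have h1 : ‖∑ i ∈ u, e (t * (y i + N))‖ = ‖∑ i ∈ u, e (t * y i)‖ := by
        have h2 : ∀ i ∈ u, e (t * (y i + N)) = e (t * N) * e (t * y i) := by
          intro i _
          rw [← e_add]
          congr 1
          ring
        rw [sum_congr rfl h2, ← mul_sum, norm_mul, norm_e, one_mul]
      rw [h1]
      have h2 := hsum t (by rw [hpow] at ht; linarith)
      refine h2.trans ?_
      apply mul_le_mul_of_nonneg_left _ hu0.le
      have h3 := hdec (t * lam') (mul_ne_zero ht0 hlam0.ne')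
      have ht' : 0 < |t| := abs_pos.2 ht0
      have h4 : |t * lam'| ^ (-δ) ≤ 8 ^ δ * (|t| * 2 ^ (k + 3)) ^ (-δ) := by
        rw [abs_mul, abs_of_pos hlam0]
        have h5 : (|t| * lam') ^ (-δ) ≤ (|t| * 2 ^ k) ^ (-δ) := by
          apply Real.rpow_le_rpow_of_nonpos (by positivity) _ (by linarith)
          exact mul_le_mul_of_nonneg_left hlow ht'.le
        refine h5.trans (le_of_eq ?_)
        have h6 : |t| * 2 ^ (k + 3) = 8 * (|t| * 2 ^ k) := by rw [hpow]; ring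
        have h7 : (8 * (|t| * 2 ^ k)) ^ (-δ) = (8 : ℝ) ^ (-δ) * (|t| * 2 ^ k) ^ (-δ) :=
          Real.mul_rpow (by norm_num) (by positivity)
        rw [h6, h7, ← mul_assoc, ← Real.rpow_add (by norm_num : (0 : ℝ) < 8)]
        simp
      have h5 : ‖∫ x, e (t * lam' * x) ∂ν‖ ≤ |C| * (8 ^ δ * (|t| * 2 ^ (k + 3)) ^ (-δ)) := by
        refine h3.trans ?_
        calc C * |t * lam'| ^ (-δ) ≤ |C| * |t * lam'| ^ (-δ) := mul_le_mul_of_nonneg_right (le_abs_self C) (by positivity)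
          _ ≤ _ := mul_le_mul_of_nonneg_left h4 (abs_nonneg C)
      have h6 : (1 : ℝ) / 2 ^ k = 8 / 2 ^ (k + 3) := by rw [hpow]; field_simp
      rw [h6]
      apply add_le_add _ le_rfl
      calc 2 * ‖∫ x, e (t * lam' * x) ∂ν‖ ≤ 2 * (|C| * (8 ^ δ * (|t| * 2 ^ (k + 3)) ^ (-δ))) := by linarith
        _ = _ := by ring
    · intro α
      have h1 := hA ν hdec k lam' hlam0 hlow ι u y hu hsum (N : ℤ) α
      have h2 : ∀ i ∈ u, ee (α * ((⌊y i⌋ + (N : ℤ) : ℤ) : ℝ)) = ee (α * ((⌊y i + (N : ℝ)⌋ : ℤ) : ℝ)) := by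
        intro i _
        rw [Int.floor_add_natCast]
      rw [sum_congr rfl h2] at h1
      rw [hpow]
      have h3 : (8 : ℝ) ≤ 8 ^ A := le_self_pow₀ (by norm_num) (by omega)
      calc ‖∑ i ∈ u, ee (α * ⌊y i + (N : ℝ)⌋)‖ ^ A * (8 * 2 ^ k * |α - round α|) =
          8 * (‖∑ i ∈ u, ee (α * ⌊y i + (N : ℝ)⌋)‖ ^ A * (2 ^ k * |α - round α|)) := by ring
        _ ≤ 8 * (4 * u.card) ^ A := by linarith
        _ ≤ 8 ^ A * (4 * u.card) ^ A := mul_le_mul_of_nonneg_right h3 (by positivity)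
        _ = (32 * u.card) ^ A := by rw [← mul_pow]; congr 1; ring
  have hz'a : |z'| ≤ |c| + R * lam := by
    rw [hz']
    refine (abs_sub _ _).trans ?_
    rw [abs_of_nonneg (show 0 ≤ R * lam by nlinarith)]
  have hfl : |((⌊z'⌋ : ℤ) : ℝ)| ≤ |z'| + 1 := by
    have h1 : ((⌊z'⌋ : ℤ) : ℝ) = z' - Int.fract z' := by
      have := Int.floor_add_fract z'
      linarith
    rw [h1]
    refine (abs_sub _ _).trans ?_
    rw [abs_of_nonneg hfr0]
    linarith
  have hcount : ∀ d : ℤ, d ∈ Icc (-(D + 2 : ℤ)) (D + 2) → ((u.filter fun i => ¬ P (⌊z'⌋ + (⌊y i⌋ + d))).card : ℝ) ≤ β * u.card := by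
    intro d hd
    rw [mem_Icc] at hd
    obtain ⟨Z, hZ⟩ : ∃ Z : ℤ, Z = ⌊z'⌋ + d - N := ⟨_, rfl⟩
    have hZb : |(Z : ℝ)| ≤ |c| + 16 * R * lam + D := by
      have hd' : |(d : ℝ)| ≤ D + 2 := by
        rw [abs_le]
        constructor
        · have : ((-(D + 2) : ℤ) : ℝ) ≤ (d : ℝ) := by exact_mod_cast hd.1
          push_cast at this
          linarith
        · have : (d : ℝ) ≤ ((D + 2 : ℤ) : ℝ) := by exact_mod_cast hd.2
          push_cast at this
          linarith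
      have e1 : (Z : ℝ) = (⌊z'⌋ : ℝ) + d - N := by rw [hZ]; push_cast; ring
      rw [e1]
      have q1 := abs_sub ((⌊z'⌋ : ℝ) + d) (N : ℝ)
      have q2 := abs_add_le (⌊z'⌋ : ℝ) (d : ℝ)
      have q3 : |(N : ℝ)| = N := abs_of_nonneg (Nat.cast_nonneg _)
      rw [q3] at q1
      nlinarith
    have h1 := hP (k + 3) (by rw [hpow]; linarith) (by
      rw [hpow]
      calc 8 * (2 : ℝ) ^ k ≤ 8 * lam' := by linarith
        _ = 16 * R * lam := by rw [hlam']; ring) _ hmc Z hZb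
    have h2 := count_disR u hu (fun i => y i + N) (k + 3) (fun i hi => (hY i hi).2) (fun v => P (Z + (v : ℕ))) β h1
    rw [mul_comm] at h2
    refine le_trans (le_of_eq ?_) h2
    congr 2
    apply filter_congr
    intro i hi
    have h3 : ((⌊y i + (N : ℝ)⌋₊ : ℕ) : ℤ) = ⌊y i⌋ + N := by
      rw [Int.natCast_floor_eq_floor (hY i hi).1, Int.floor_add_natCast]
    simp only [h3]
    rw [hZ]
    have e2 : ⌊z'⌋ + d - (N : ℤ) + (⌊y i⌋ + N) = ⌊z'⌋ + (⌊y i⌋ + d) := by ring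
    rw [e2]
  -- the measure
  have hmeas : ν.real {x | ¬ ∀ q : ℤ, |(q : ℝ) - (lam' * x + Int.fract z')| ≤ D → P (⌊z'⌋ + q)} ≤ (2 * D + 5) * β + 1 / 2 ^ k := by
    refine (hfam _ (fun y' => ∃ q : ℤ, |(q : ℝ) - y'| ≤ D + 1 ∧ ¬ P (⌊z'⌋ + q)) ?_).trans ?_
    · intro x hx y' hy'
      simp only [Set.mem_ofPred_eq] at hx
      push Not at hx
      obtain ⟨q, hq, hl⟩ := hx
      refine ⟨q, ?_, hl⟩
      have : (q : ℝ) - y' = (q - (lam' * x + Int.fract z')) + ((lam' * x + Int.fract z') - y') := by ring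
      rw [this]
      refine (abs_add_le _ _).trans (add_le_add hq ?_)
      rw [abs_sub_comm]
      exact hy'
    · apply add_le_add _ le_rfl
      rw [div_le_iff₀ hu0]
      have hcov : (u.filter fun i => ∃ q : ℤ, |(q : ℝ) - y i| ≤ D + 1 ∧ ¬ P (⌊z'⌋ + q)) ⊆
          (Icc (-(D + 2 : ℤ)) (D + 2)).biUnion fun d => u.filter fun i => ¬ P (⌊z'⌋ + (⌊y i⌋ + d)) := by
        intro i hi
        rw [mem_filter] at hi
        obtain ⟨hiu, q, hq, hl⟩ := hi
        simp only [mem_biUnion, mem_filter]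
        refine ⟨q - ⌊y i⌋, ?_, hiu, ?_⟩
        · have h1 := Int.floor_le (y i)
          have h2 := Int.lt_floor_add_one (y i)
          rw [abs_le] at hq
          have h3 : ((q - ⌊y i⌋ : ℤ) : ℝ) ≤ ((D + 2 : ℤ) : ℝ) := by
            push_cast
            linarith [hq.2]
          have h4 : ((-(D + 2) : ℤ) : ℝ) ≤ ((q - ⌊y i⌋ : ℤ) : ℝ) := by
            push_cast
            linarith [hq.1]
          rw [mem_Icc]
          exact ⟨by exact_mod_cast h4, by exact_mod_cast h3⟩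
        · rw [add_sub_cancel]
          exact hl
      calc _ ≤ ((((Icc (-(D + 2 : ℤ)) (D + 2)).biUnion fun d => u.filter fun i => ¬ P (⌊z'⌋ + (⌊y i⌋ + d))).card : ℕ) : ℝ) := by
              exact_mod_cast card_le_card hcov
        _ ≤ ((∑ d ∈ Icc (-(D + 2 : ℤ)) (D + 2), (u.filter fun i => ¬ P (⌊z'⌋ + (⌊y i⌋ + d))).card : ℕ) : ℝ) := by
              exact_mod_cast card_biUnion_le
        _ ≤ ∑ d ∈ Icc (-(D + 2 : ℤ)) (D + 2), β * u.card := by
              push_cast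
              exact sum_le_sum fun d hd => hcount d hd
        _ = (2 * D + 5) * β * u.card := by
              rw [sum_const, Int.card_Icc, nsmul_eq_mul]
              have : ((((D : ℤ) + 2 + 1 - -(D + 2)).toNat : ℕ) : ℝ) = 2 * D + 5 := by
                have h1 : ((D : ℤ) + 2 + 1 - -(D + 2)).toNat = 2 * D + 5 := by omega
                rw [h1]
                push_cast
                ring
              rw [this]
              ring
  have h8 := hreal {x | ¬ ∀ q : ℤ, |(q : ℝ) - (lam' * x + Int.fract z')| ≤ D → P (⌊z'⌋ + q)}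
  have h9 : {x' | ¬ ∀ q : ℤ, |(q : ℝ) - (lam * x' + c)| ≤ D → P q} ⊆
      {x' | (x' + R) / (2 * R) ∈ {x | ¬ ∀ q : ℤ, |(q : ℝ) - (lam' * x + Int.fract z')| ≤ D → P (⌊z'⌋ + q)}} := by
    intro x' hx'
    simp only [Set.mem_ofPred_eq] at hx' ⊢
    push Not at hx' ⊢
    obtain ⟨q, hq, hl⟩ := hx'
    have hR0 : R ≠ 0 := by linarith
    refine ⟨q - ⌊z'⌋, ?_, ?_⟩
    · have e1 : ((q - ⌊z'⌋ : ℤ) : ℝ) - (lam' * ((x' + R) / (2 * R)) + Int.fract z') = q - (lam * x' + c) := by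
        have h1 : Int.fract z' = z' - ⌊z'⌋ := rfl
        rw [h1, hz', hlam']
        push_cast
        field_simp
        ring
      rw [e1]
      exact hq
    · have e2 : ⌊z'⌋ + (q - ⌊z'⌋) = q := by ring
      rw [e2]
      exact hl
  refine (measureReal_mono h9 (measure_ne_top μ _)).trans (h8.trans ?_)
  apply mul_le_mul_of_nonneg_left _ measureReal_nonneg
  refine hmeas.trans ?_
  have h10 : 1 / (2 : ℝ) ^ k ≤ 1 / lam := one_div_le_one_div_of_le (by linarith) hlamk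
  linarith

end Pool.Agent.Run7.h582.MC
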