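import Pool.Agent.Run7.h582.MC.MC2
import Pool.Agent.Run7.h927.SV.X7

set_option autoImplicit false
set_option maxHeartbeats 4000000

/-!
Transfer of the laws of helper927 for classes of distributions in the range of the sieve to the measures with polynomial
Fourier decay.
-/

namespace Pool.Agent.Run7.h582.MC

open Finset Filter MeasureTheory
open Pool.Agent.Run7.h582.FM
open Pool.Agent.H373R2.T7 (Vz Vz_pos)

structure Sc (R₀ ε : ℝ) (lam : ℝ) (k : ℕ) : Prop where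
  one : 1 ≤ Real.log lam
  le : Real.log lam ≤ k
  up : k * Real.log 2 ≤ (1 + ε) * Real.log lam
  ll : Real.log (Real.log lam) ≤ Real.log k
  ll2 : Real.log k ≤ 2 * Real.log (Real.log lam)
  nn : 0 ≤ Real.log (Real.log lam)
  R : R₀ ≤ k
  lo : lam ≤ 2 ^ k
  hi : (2 : ℝ) ^ k ≤ R₀ * lam

lemma scales (R₀ ε : ℝ) (k₀ : ℕ) (hR : 1 ≤ R₀) (hε : 0 < ε) : ∃ Λ₀ : ℝ, 1 ≤ Λ₀ ∧ ∀ lam, Λ₀ ≤ lam → ∀ k : ℕ,
    lam ≤ 2 ^ k → (2 : ℝ) ^ k ≤ R₀ * lam → k₀ ≤ k ∧ Sc R₀ ε lam k := by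
  obtain ⟨T₀, hT₀⟩ : ∃ T₀ : ℝ, T₀ = max (max (k₀ : ℝ) R₀) (max 4 (max (Real.log R₀) (Real.log R₀ / ε))) := ⟨_, rfl⟩
  have g1 : (k₀ : ℝ) ≤ T₀ := by rw [hT₀]; exact (le_max_left _ _).trans (le_max_left _ _)
  have g2 : R₀ ≤ T₀ := by rw [hT₀]; exact (le_max_right _ _).trans (le_max_left _ _)
  have g3 : 4 ≤ T₀ := by rw [hT₀]; exact (le_max_left _ _).trans (le_max_right _ _)
  have g4 : Real.log R₀ ≤ T₀ := by
    rw [hT₀]; exact (le_max_left _ _).trans ((le_max_right _ _).trans (le_max_right _ _))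
  have g5 : Real.log R₀ / ε ≤ T₀ := by
    rw [hT₀]; exact (le_max_right _ _).trans ((le_max_right _ _).trans (le_max_right _ _))
  refine ⟨Real.exp T₀, Real.one_le_exp (by linarith), fun lam hlam k hlo hhi => ?_⟩
  have hlam0 : 0 < lam := (Real.exp_pos _).trans_le hlam
  obtain ⟨T, hT⟩ : ∃ T, T = Real.log lam := ⟨_, rfl⟩
  have hTT : T₀ ≤ T := by rw [hT]; exact (Real.le_log_iff_exp_le hlam0).2 hlam
  have l2 : Real.log 2 ≤ 1 := by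
    have := Real.log_two_lt_d9
    linarith
  have l2' : 1 / 2 ≤ Real.log 2 := by
    have := Real.log_two_gt_d9
    linarith
  have h1 : T ≤ k * Real.log 2 := by
    rw [hT]
    have := Real.log_le_log hlam0 hlo
    rwa [Real.log_pow] at this
  have h2 : k * Real.log 2 ≤ Real.log R₀ + T := by
    have := Real.log_le_log (by positivity) hhi
    rw [Real.log_pow, Real.log_mul (by linarith) hlam0.ne'] at this
    rw [hT]
    exact this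
  have hk0 : (0 : ℝ) ≤ k := Nat.cast_nonneg _
  have h3 : T ≤ k := by nlinarith
  have h4 : (k : ℝ) ≤ T ^ 2 := by nlinarith
  have hT1 : 1 ≤ T := by linarith
  refine ⟨by exact_mod_cast (g1.trans hTT).trans h3, ?_⟩
  refine ⟨by rw [← hT]; exact hT1, by rw [← hT]; exact h3, ?_, ?_, ?_, ?_, (g2.trans hTT).trans h3, hlo, hhi⟩
  · rw [← hT]
    rw [div_le_iff₀ hε] at g5
    nlinarith
  · rw [← hT]
    exact Real.log_le_log (by linarith) h3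
  · rw [← hT]
    have := Real.log_le_log (by linarith) h4
    rwa [Real.log_pow] at this
  · rw [← hT]
    exact Real.log_nonneg hT1

open Classical in
/-- the transfer -/
theorem transfer (μ : Measure ℝ) (hμ : Decay μ) : ∃ (C δ : ℝ) (A : ℕ) (R₀ : ℝ), 0 < δ ∧ 1 ≤ A ∧ 1 ≤ R₀ ∧
    ∀ (B : ℝ) (D : ℕ) (ε : ℝ), 0 < ε → ∃ (ε' : ℝ) (B' : ℕ), 0 < ε' ∧ ε' ≤ ε / 2 ∧ ε' ≤ 1 ∧ ∀ k₀ : ℕ, ∃ Λ₀ : ℝ, 1 ≤ Λ₀ ∧
    ∀ lam : ℝ, Λ₀ ≤ lam → ∀ c : ℝ, |c| ≤ B * lam → ∀ P : ℤ → Prop,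
      (∀ k : ℕ, k₀ ≤ k → Sc R₀ (ε / 4) lam k → ∀ p, MC C δ A k p → ∀ Z : ℤ, |Z| ≤ B' * (2 : ℤ) ^ k →
        ∑ v ∈ range (2 ^ k), (if P (Z + (v : ℕ)) then 0 else p v) ≤ ε') →
      μ.real {x | ¬ ∀ q : ℤ, |(q : ℝ) - (lam * x + c)| ≤ D → P q} ≤ ε := by
  obtain ⟨C, δ, A, R₀, M, hδ, hA, hR, hM, h⟩ := meas_mc μ hμ
  refine ⟨C, δ, A, R₀, hδ, hA, hR, fun B D ε hε => ?_⟩
  have hD : (0 : ℝ) < 2 * D + 5 := by positivity
  obtain ⟨ε', hε'⟩ : ∃ ε' : ℝ, ε' = min (min (ε / 2) 1) (ε / (2 * (M * (2 * D + 5)))) := ⟨_, rfl⟩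
  have e0 : 0 < ε' := by rw [hε']; positivity
  have e1 : ε' ≤ ε / 2 := by rw [hε']; exact (min_le_left _ _).trans (min_le_left _ _)
  have e2 : ε' ≤ 1 := by rw [hε']; exact (min_le_left _ _).trans (min_le_right _ _)
  have e3 : ε' ≤ ε / (2 * (M * (2 * D + 5))) := by rw [hε']; exact min_le_right _ _
  refine ⟨ε', ⌈|B| + R₀ + D⌉₊, e0, e1, e2, fun k₀ => ?_⟩
  obtain ⟨Λ₁, hΛ1, hΛ⟩ := scales R₀ (ε / 4) k₀ hR (by positivity)
  refine ⟨max Λ₁ (2 * M / ε), hΛ1.trans (le_max_left _ _), fun lam hlam c hc P hP => ?_⟩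
  have hl1 : Λ₁ ≤ lam := (le_max_left _ _).trans hlam
  have hl2 : 2 * M / ε ≤ lam := (le_max_right _ _).trans hlam
  have hlam1 : 1 ≤ lam := hΛ1.trans hl1
  have hlam0 : 0 < lam := by linarith
  refine (h lam c hlam1 D P ε' e0.le ?_).trans ?_
  · intro k hlo hhi p hp Z hZ
    obtain ⟨q1, q2⟩ := hΛ lam hl1 k hlo hhi
    refine hP k q1 q2 p hp Z ?_
    have h1 : (|Z| : ℝ) ≤ (⌈|B| + R₀ + D⌉₊ : ℝ) * 2 ^ k := by
      have hD0 : (0 : ℝ) ≤ D := Nat.cast_nonneg _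
      have h2 : |c| ≤ |B| * lam := hc.trans (mul_le_mul_of_nonneg_right (le_abs_self B) hlam0.le)
      calc |(Z : ℝ)| ≤ |c| + R₀ * lam + D := hZ
        _ ≤ (|B| + R₀ + D) * lam := by nlinarith
        _ ≤ (⌈|B| + R₀ + D⌉₊ : ℝ) * 2 ^ k := by
          apply mul_le_mul (Nat.le_ceil _) hlo hlam0.le (Nat.cast_nonneg _)
    exact_mod_cast h1
  · have h1 : M * (2 * D + 5) * ε' ≤ ε / 2 := by
      rw [le_div_iff₀ (by positivity)] at e3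
      nlinarith
    have h2 : M / lam ≤ ε / 2 := by
      rw [div_le_iff₀ hlam0]
      rw [div_le_iff₀ hε] at hl2
      nlinarith
    calc M * ((2 * D + 5) * ε' + 1 / lam) = M * (2 * D + 5) * ε' + M / lam := by ring
      _ ≤ ε := by linarith

lemma coef {ε ε' T K V s : ℝ} (hε : 0 < ε) (h1 : ε' ≤ ε / 2) (hε1 : ε ≤ 1) (hV : 0 < V) (hT : 0 < T) (hK : 0 < K)
    (hKT : K ≤ (1 + ε / 4) * T) (hs : 0 ≤ s) : (1 - ε) * (s / (V * T)) ≤ (1 - ε') * (s / (V * K)) := by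
  have e1 : (1 - ε) * (s / (V * T)) = (s / V) * ((1 - ε) / T) := by field_simp
  have e2 : (1 - ε') * (s / (V * K)) = (s / V) * ((1 - ε') / K) := by field_simp
  rw [e1, e2]
  apply mul_le_mul_of_nonneg_left _ (by positivity)
  rw [div_le_div_iff₀ hT hK]
  have h2 : (1 - ε) * K ≤ (1 - ε) * ((1 + ε / 4) * T) := mul_le_mul_of_nonneg_left hKT (by linarith)
  have h3 : (1 - ε) * (1 + ε / 4) ≤ 1 - ε' := by nlinarith
  have h4 := mul_le_mul_of_nonneg_right h3 hT.le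
  linarith

/-- **one dense set of primes** -/
theorem ae_dense (μ : Measure ℝ) (hμ : Decay μ) (B : ℝ) (D J A C : ℕ) (ε : ℝ) (hε : 0 < ε) (hε1 : ε ≤ 1) :
    ∃ K₀ : ℕ, ∀ K₁ : ℕ, ∃ Λ₀ : ℝ, 1 ≤ Λ₀ ∧ ∀ lam : ℝ, Λ₀ ≤ lam → ∀ c : ℝ, |c| ≤ B * lam →
    ∀ y : ℕ, K₀ * Real.log (Real.log lam) ≤ y → y ≤ K₁ * Real.log (Real.log lam) →
    ∀ h : ℕ, 1 ≤ h → (h : ℝ) ≤ Real.log lam ^ J → ∀ X : ℕ, lam ≤ X * Real.log lam ^ C → (X : ℝ) ≤ lam * Real.log lam ^ C →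
    ∀ S : Finset ℕ, S ⊆ Icc 1 X → (∀ s ∈ S, s.Prime) → (X : ℝ) ≤ S.card * Real.log lam ^ A →
    μ.real {x | ¬ ∀ q : ℤ, |(q : ℝ) - (lam * x + c)| ≤ D → (X : ℤ) < ((primorial y * h : ℕ) : ℤ) * q →
      (1 - ε) * (S.card / (Vz y * Real.log lam)) ≤
        ((S.filter (fun s => (((primorial y * h : ℕ) : ℤ) * q - (s : ℕ)).toNat.Prime)).card : ℝ)} ≤ ε := by
  classical
  obtain ⟨C₁, δ, A₁, R₀, hδ, hA₁, hR, htr⟩ := transfer μ hμ
  obtain ⟨ε', B', e0, e1, e2, htr⟩ := htr B D ε hε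
  obtain ⟨K₀, h0⟩ := Pool.Agent.Run7.h927.SV.dense_sum (mc_siev C₁ δ hδ A₁ hA₁) 1 one_ne_zero B' J A (C + 1) ε' e0 e2
  refine ⟨2 * K₀, fun K₁ => ?_⟩
  obtain ⟨k₀, h0⟩ := h0 K₁
  obtain ⟨Λ₀, hΛ1, htr⟩ := htr k₀
  refine ⟨Λ₀, hΛ1, fun lam hlam c hc y hy1 hy2 h hh1 hhJ X hX1 hX2 S hS hSp hSA => ?_⟩
  refine htr lam hlam c hc (fun q => (X : ℤ) < ((primorial y * h : ℕ) : ℤ) * q →
      (1 - ε) * (S.card / (Vz y * Real.log lam)) ≤
        ((S.filter (fun s => (((primorial y * h : ℕ) : ℤ) * q - (s : ℕ)).toNat.Prime)).card : ℝ)) ?_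
  intro k hk hsc p hp Z hZ
  have hT := hsc.one
  have hTk := hsc.le
  have hk1 : (1 : ℝ) ≤ k := hT.trans hTk
  have hpowk : ∀ n : ℕ, Real.log lam ^ n ≤ (k : ℝ) ^ n := fun n => pow_le_pow_left₀ (by linarith) hTk n
  have hlam0 : 0 < lam := by linarith [hΛ1.trans hlam]
  have hy1' : (K₀ : ℝ) * Real.log k ≤ y := by
    refine le_trans ?_ hy1
    have := mul_le_mul_of_nonneg_left hsc.ll2 (Nat.cast_nonneg (α := ℝ) K₀)
    push_cast
    linarith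
  have hy2' : (y : ℝ) ≤ K₁ * Real.log k := hy2.trans (mul_le_mul_of_nonneg_left hsc.ll (Nat.cast_nonneg _))
  have hhJ' : h ≤ k ^ J := by
    have := hhJ.trans (hpowk J)
    exact_mod_cast this
  have hX0 : (0 : ℝ) ≤ X := Nat.cast_nonneg _
  have hX1' : 2 ^ k ≤ X * k ^ (C + 1) := by
    have : (2 : ℝ) ^ k ≤ X * (k : ℝ) ^ (C + 1) := by
      calc (2 : ℝ) ^ k ≤ R₀ * lam := hsc.hi
        _ ≤ k * (X * Real.log lam ^ C) := mul_le_mul hsc.R hX1 hlam0.le (by linarith)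
        _ ≤ k * (X * (k : ℝ) ^ C) := by
          apply mul_le_mul_of_nonneg_left _ (by linarith)
          exact mul_le_mul_of_nonneg_left (hpowk C) hX0
        _ = X * (k : ℝ) ^ (C + 1) := by ring
    exact_mod_cast this
  have hX2' : X ≤ 2 ^ k * k ^ (C + 1) := by
    have : (X : ℝ) ≤ 2 ^ k * (k : ℝ) ^ (C + 1) := by
      calc (X : ℝ) ≤ lam * Real.log lam ^ C := hX2
        _ ≤ 2 ^ k * (k : ℝ) ^ (C + 1) := by
          apply mul_le_mul hsc.lo _ (by positivity) (by positivity)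
          exact (hpowk C).trans (pow_le_pow_right₀ hk1 (by omega))
    exact_mod_cast this
  have hSA' : (X : ℝ) ≤ S.card * (k : ℝ) ^ A := hSA.trans (mul_le_mul_of_nonneg_left (hpowk A) (Nat.cast_nonneg _))
  refine le_trans (sum_le_sum fun v _ => ?_)
    (h0 k hk p hp y hy1' hy2' Z (by exact_mod_cast hZ) h hh1 hhJ' X hX1' hX2' S hS hSp hSA')
  have hp0 := (mc_siev C₁ δ hδ A₁ hA₁).nonneg k p hp v
  by_cases hP : (X : ℤ) < ((primorial y * h : ℕ) : ℤ) * (Z + (v : ℕ)) →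
      (1 - ε) * (S.card / (Vz y * Real.log lam)) ≤
        ((S.filter (fun s => (((primorial y * h : ℕ) : ℤ) * (Z + (v : ℕ)) - (s : ℕ)).toNat.Prime)).card : ℝ)
  · rw [if_pos hP]
    split_ifs
    · exact hp0
    · exact le_rfl
  · rw [if_neg hP, if_pos]
    push Not at hP
    obtain ⟨q1, q2⟩ := hP
    rw [one_mul]
    refine ⟨q1, ?_⟩
    refine lt_of_lt_of_le (lt_of_eq_of_lt ?_ q2) ?_
    · congr!
    · refine coef hε e1 hε1 (Vz_pos y) (by linarith) ?_ hsc.up (Nat.cast_nonneg _)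
      have := Real.log_two_gt_d9
      positivity

end Pool.Agent.Run7.h582.MC
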