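import Pool.Agent.Run7.h582.MC.MC3
import Pool.Agent.N625.PT.X8

set_option autoImplicit false
set_option maxHeartbeats 4000000

/-!
Many sets of primes and many multiples at once.
-/

namespace Pool.Agent.Run7.h582.MC

open Finset Filter MeasureTheory
open Pool.Agent.Run7.h582.FM
open Pool.Agent.N794.CG (Scale scale_of)
open Pool.Agent.H373R2.T7 (Vz Vz_pos)

lemma band (C k₀ : ℕ) : ∃ Λ₀ : ℝ, 1 ≤ Λ₀ ∧ ∀ lam : ℝ, Λ₀ ≤ lam → ∀ X : ℕ, lam ≤ X * Real.log lam ^ C →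
    (X : ℝ) ≤ lam * Real.log lam ^ C → ∃ k : ℕ, k₀ ≤ k ∧ 2 ^ k ≤ X * k ^ (C + 1) ∧ X ≤ 2 ^ k * k ^ (C + 1) ∧
      (k : ℝ) ≤ Real.log lam ^ 2 := by
  obtain ⟨Λ₀, hΛ1, h⟩ := scales 2 1 k₀ (by norm_num) one_pos
  refine ⟨Λ₀, hΛ1, fun lam hlam X hX1 hX2 => ?_⟩
  have hlam1 := hΛ1.trans hlam
  have hlam0 : 0 < lam := by linarith
  obtain ⟨s1, s2⟩ := scale_of lam hlam1
  obtain ⟨k, hk⟩ : ∃ k, k = Nat.log 2 ⌊lam⌋₊ + 1 := ⟨_, rfl⟩
  rw [← hk] at s2
  have hhi : (2 : ℝ) ^ k ≤ 2 * lam := by rw [hk, pow_succ]; linarith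
  obtain ⟨q1, hsc⟩ := h lam hlam k s2.le hhi
  have hT := hsc.one
  have hTk := hsc.le
  have hk1 : (1 : ℝ) ≤ k := hT.trans hTk
  have hpowk : ∀ n : ℕ, Real.log lam ^ n ≤ (k : ℝ) ^ n := fun n => pow_le_pow_left₀ (by linarith) hTk n
  refine ⟨k, q1, ?_, ?_, ?_⟩
  · have : (2 : ℝ) ^ k ≤ X * (k : ℝ) ^ (C + 1) := by
      calc (2 : ℝ) ^ k ≤ 2 * lam := hsc.hi
        _ ≤ k * (X * Real.log lam ^ C) := mul_le_mul hsc.R hX1 hlam0.le (by linarith)
        _ ≤ k * (X * (k : ℝ) ^ C) := by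
          apply mul_le_mul_of_nonneg_left _ (by linarith)
          exact mul_le_mul_of_nonneg_left (hpowk C) (Nat.cast_nonneg _)
        _ = X * (k : ℝ) ^ (C + 1) := by ring
    exact_mod_cast this
  · have : (X : ℝ) ≤ 2 ^ k * (k : ℝ) ^ (C + 1) := by
      calc (X : ℝ) ≤ lam * Real.log lam ^ C := hX2
        _ ≤ 2 ^ k * (k : ℝ) ^ (C + 1) := by
          apply mul_le_mul hsc.lo _ (by positivity) (by positivity)
          exact (hpowk C).trans (pow_le_pow_right₀ hk1 (by omega))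
    exact_mod_cast this
  · have h1 : Real.log k ≤ Real.log (Real.log lam ^ 2) := by
      rw [Real.log_pow]
      exact_mod_cast hsc.ll2
    exact (Real.log_le_log_iff (by linarith) (by positivity)).1 h1

open Classical in
/-- **many sets of primes and many multiples** -/
theorem ae_types (μ : Measure ℝ) (hμ : Decay μ) (U : ℕ → ℕ → Finset ℕ) (Ad : ℕ → ℕ) (hU : ∀ a X, U a X ⊆ Icc 1 X)
    (hUp : ∀ a X, ∀ s ∈ U a X, s.Prime) (hUd : ∀ C a : ℕ, ∃ k₀ : ℕ, ∀ k : ℕ, k₀ ≤ k → ∀ X : ℕ, 2 ^ k ≤ X * k ^ C →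
      X ≤ 2 ^ k * k ^ C → (X : ℝ) ≤ (U a X).card * (k : ℝ) ^ (Ad a))
    (B : ℝ) (D J A C : ℕ) (ε : ℝ) (hε : 0 < ε) (hε1 : ε ≤ 1) :
    ∃ K₀ : ℕ, ∀ K₁ : ℕ, ∃ Λ₀ : ℝ, 1 ≤ Λ₀ ∧ ∀ lam : ℝ, Λ₀ ≤ lam → ∀ c : ℝ, |c| ≤ B * lam →
    ∀ y : ℕ, K₀ * Real.log (Real.log lam) ≤ y → y ≤ K₁ * Real.log (Real.log lam) →
    ∀ H : ℕ, (H : ℝ) ≤ Real.log lam ^ J → ∀ X : ℕ, lam ≤ X * Real.log lam ^ C → (X : ℝ) ≤ lam * Real.log lam ^ C →
    μ.real {x | ¬ ∀ q : ℤ, |(q : ℝ) - (lam * x + c)| ≤ D →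
      (((Icc 1 H).filter (fun h => ¬ ((X : ℤ) < ((primorial y * h : ℕ) : ℤ) * q → ∀ a ≤ A,
        (1 - ε) * ((U a X).card / (Vz y * Real.log lam)) ≤
        (((U a X).filter (fun s => (((primorial y * h : ℕ) : ℤ) * q - (s : ℕ)).toNat.Prime)).card : ℝ)))).card : ℝ) ≤
          ε * H} ≤ ε := by
  obtain ⟨C₁, δ, A₁, R₀, hδ, hA₁, hR, htr⟩ := transfer μ hμ
  obtain ⟨ε', B', e0, e1, e2, htr⟩ := htr B D ε hε
  have hA : (0 : ℝ) < A + 1 := by positivity
  have hA1 : (1 : ℝ) ≤ A + 1 := by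
    have : (0 : ℝ) ≤ A := Nat.cast_nonneg A
    linarith
  obtain ⟨η, hη⟩ : ∃ η : ℝ, η = ε' * ε / (A + 1) := ⟨_, rfl⟩
  have hη0 : 0 < η := by rw [hη]; positivity
  have hηε : η ≤ ε' := by
    rw [hη, div_le_iff₀ hA]
    nlinarith
  have hd := fun a : ℕ => Pool.Agent.Run7.h927.SV.dense_sum (mc_siev C₁ δ hδ A₁ hA₁) 1 one_ne_zero B' J (Ad a) (C + 1) η hη0
    (hηε.trans e2)
  choose K₀ hK₀ using hd
  refine ⟨2 * (range (A + 1)).sup K₀, fun K₁ => ?_⟩
  have hd := fun a : ℕ => hK₀ a K₁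
  choose x₀ hx₀ using hd
  have hd := fun a : ℕ => hUd (C + 1) a
  choose x₁ hx₁ using hd
  obtain ⟨Λ₀, hΛ1, htr⟩ := htr (max ((range (A + 1)).sup x₀) ((range (A + 1)).sup x₁))
  refine ⟨Λ₀, hΛ1, fun lam hlam c hc y hy1 hy2 H hHJ X hX1 hX2 => ?_⟩
  refine htr lam hlam c hc (fun q => (((Icc 1 H).filter (fun h => ¬ ((X : ℤ) < ((primorial y * h : ℕ) : ℤ) * q → ∀ a ≤ A,
        (1 - ε) * ((U a X).card / (Vz y * Real.log lam)) ≤
        (((U a X).filter (fun s => (((primorial y * h : ℕ) : ℤ) * q - (s : ℕ)).toNat.Prime)).card : ℝ)))).card : ℝ) ≤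
          ε * H) ?_
  intro k hk hsc p hp Z hZ
  have b1 : (range (A + 1)).sup x₀ ≤ k := (le_max_left _ _).trans hk
  have b2 : (range (A + 1)).sup x₁ ≤ k := (le_max_right _ _).trans hk
  have hT := hsc.one
  have hTk := hsc.le
  have hk1 : (1 : ℝ) ≤ k := hT.trans hTk
  have hpowk : ∀ n : ℕ, Real.log lam ^ n ≤ (k : ℝ) ^ n := fun n => pow_le_pow_left₀ (by linarith) hTk n
  have hlam0 : 0 < lam := by linarith [hΛ1.trans hlam]
  have hlogk : 0 ≤ Real.log k := Real.log_nonneg hk1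
  have hy1' : (((range (A + 1)).sup K₀ : ℕ) : ℝ) * Real.log k ≤ y := by
    refine le_trans ?_ hy1
    have := mul_le_mul_of_nonneg_left hsc.ll2 (Nat.cast_nonneg (α := ℝ) ((range (A + 1)).sup K₀))
    push_cast
    linarith
  have hy2' : (y : ℝ) ≤ K₁ * Real.log k := hy2.trans (mul_le_mul_of_nonneg_left hsc.ll (Nat.cast_nonneg _))
  have hHJ' : H ≤ k ^ J := by
    have := hHJ.trans (hpowk J)
    exact_mod_cast this
  have hX0 : (0 : ℝ) ≤ X := Nat.cast_nonneg _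
  have hX1' : 2 ^ k ≤ X * k ^ (C + 1) := by
    have : (2 : ℝ) ^ k ≤ X * (k : ℝ) ^ (C + 1) := by
      calc (2 : ℝ) ^ k ≤ R₀ * lam := hsc.hi
        _ ≤ k * (X * Real.log lam ^ C) := mul_le_mul hsc.R hX1 hlam0.le (by linarith)
        _ ≤ k * (X * (k : ℝ) ^ C) := by
          apply mul_le_mul_of_nonneg_left _ (by linarith)
          exact mul_le_mul_of_nonneg_left (hpowk C) hX0
        _ = X * (k : ℝ) ^ (C + 1) := by ring
    exact_mod_cast this
  have hX2' : X ≤ 2 ^ k * k ^ (C + 1) := by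
    have : (X : ℝ) ≤ 2 ^ k * (k : ℝ) ^ (C + 1) := by
      calc (X : ℝ) ≤ lam * Real.log lam ^ C := hX2
        _ ≤ 2 ^ k * (k : ℝ) ^ (C + 1) := by
          apply mul_le_mul hsc.lo _ (by positivity) (by positivity)
          exact (hpowk C).trans (pow_le_pow_right₀ hk1 (by omega))
    exact_mod_cast this
  have hp0 := (mc_siev C₁ δ hδ A₁ hA₁).nonneg k p hp
  obtain ⟨Bd, hBd⟩ : ∃ Bd : ℕ → ℕ → ℕ → Prop, ∀ a h v, Bd a h v ↔ ((X : ℤ) < ((primorial y * h : ℕ) : ℤ) * (Z + (v : ℕ)) ∧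
    (((U a X).filter (fun s => (((primorial y * h : ℕ) : ℤ) * (Z + (v : ℕ)) - (s : ℕ)).toNat.Prime)).card : ℝ) <
      (1 - ε) * ((U a X).card / (Vz y * Real.log lam))) := ⟨_, fun _ _ _ => Iff.rfl⟩
  have key : ∀ a ∈ range (A + 1), ∀ h ∈ Icc 1 H, ∑ v ∈ range (2 ^ k), (if Bd a h v then p v else 0) ≤ η := by
    intro a ha h hh
    rw [mem_Icc] at hh
    have h1 := hx₀ a k ((Finset.le_sup ha).trans b1) p hp y (by
      refine le_trans ?_ hy1'
      apply mul_le_mul_of_nonneg_right _ hlogk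
      exact_mod_cast Finset.le_sup ha) hy2' Z (by exact_mod_cast hZ) h hh.1 (hh.2.trans hHJ') X hX1' hX2' (U a X)
      (hU a X) (hUp a X) (hx₁ a k ((Finset.le_sup ha).trans b2) X hX1' hX2')
    refine le_trans ?_ h1
    apply sum_le_sum
    intro v _
    by_cases hv : Bd a h v
    · rw [if_pos hv, if_pos]
      rw [hBd] at hv
      rw [one_mul]
      refine ⟨hv.1, lt_of_lt_of_le hv.2 ?_⟩
      refine coef hε (hηε.trans e1) hε1 (Vz_pos y) (by linarith) ?_ hsc.up (Nat.cast_nonneg _)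
      have := Real.log_two_gt_d9
      positivity
    · rw [if_neg hv]
      split_ifs
      · exact hp0 v
      · exact le_rfl
  obtain ⟨cnt, hcnt⟩ : ∃ cnt : ℕ → ℝ, ∀ v : ℕ, cnt v = (((Icc 1 H).filter (fun h => ¬ ((X : ℤ) <
        ((primorial y * h : ℕ) : ℤ) * (Z + (v : ℕ)) → ∀ a ≤ A,
        (1 - ε) * ((U a X).card / (Vz y * Real.log lam)) ≤
        (((U a X).filter (fun s => (((primorial y * h : ℕ) : ℤ) * (Z + (v : ℕ)) - (s : ℕ)).toNat.Prime)).card : ℝ)))).card : ℝ) :=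
    ⟨_, fun _ => rfl⟩
  have hcle : ∀ v, cnt v ≤ ∑ h ∈ Icc 1 H, ∑ a ∈ range (A + 1), (if Bd a h v then (1 : ℝ) else 0) := by
    intro v
    rw [hcnt, card_eq_sum_ones, Nat.cast_sum, sum_filter]
    apply sum_le_sum
    intro h _
    have hnn : ∀ a ∈ range (A + 1), (0 : ℝ) ≤ (if Bd a h v then (1 : ℝ) else 0) := by
      intro a _
      split_ifs <;> norm_num
    by_cases hq : (X : ℤ) < ((primorial y * h : ℕ) : ℤ) * (Z + (v : ℕ)) → ∀ a ≤ A,
        (1 - ε) * ((U a X).card / (Vz y * Real.log lam)) ≤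
        (((U a X).filter (fun s => (((primorial y * h : ℕ) : ℤ) * (Z + (v : ℕ)) - (s : ℕ)).toNat.Prime)).card : ℝ)
    · rw [if_neg (not_not.2 hq)]
      exact sum_nonneg hnn
    · rw [if_pos hq]
      push Not at hq
      obtain ⟨g1, a, ha, g2⟩ := hq
      have h1 : (if Bd a h v then (1 : ℝ) else 0) = 1 := by
        rw [if_pos]
        rw [hBd]
        exact ⟨g1, g2⟩
      have := single_le_sum hnn (mem_range.2 (Nat.lt_succ_of_le ha))
      rw [h1] at this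
      simpa using this
  have hexp : ∑ v ∈ range (2 ^ k), p v * cnt v ≤ ε' * (ε * H) := by
    calc ∑ v ∈ range (2 ^ k), p v * cnt v ≤ ∑ v ∈ range (2 ^ k), ∑ h ∈ Icc 1 H, ∑ a ∈ range (A + 1), (if Bd a h v then p v else 0) := by
          apply sum_le_sum
          intro v _
          refine (mul_le_mul_of_nonneg_left (hcle v) (hp0 v)).trans (le_of_eq ?_)
          rw [mul_sum]
          apply sum_congr rfl
          intro h _
          rw [mul_sum]
          apply sum_congr rfl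
          intro a _
          split_ifs <;> simp
      _ = ∑ h ∈ Icc 1 H, ∑ a ∈ range (A + 1), ∑ v ∈ range (2 ^ k), (if Bd a h v then p v else 0) := by
          rw [sum_comm]
          apply sum_congr rfl
          intro h _
          rw [sum_comm]
      _ ≤ ∑ h ∈ Icc 1 H, ∑ a ∈ range (A + 1), η := by
          apply sum_le_sum
          intro h hh
          exact sum_le_sum fun a ha => key a ha h hh
      _ = ε' * (ε * H) := by
          rw [sum_const, sum_const, card_range, Nat.card_Icc, Nat.add_sub_cancel, hη]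
          simp only [nsmul_eq_mul]
          push_cast
          field_simp
  show ∑ v ∈ range (2 ^ k), (if (((Icc 1 H).filter (fun h => ¬ ((X : ℤ) <
        ((primorial y * h : ℕ) : ℤ) * (Z + (v : ℕ)) → ∀ a ≤ A,
        (1 - ε) * ((U a X).card / (Vz y * Real.log lam)) ≤
        (((U a X).filter (fun s => (((primorial y * h : ℕ) : ℤ) * (Z + (v : ℕ)) - (s : ℕ)).toNat.Prime)).card : ℝ)))).card : ℝ) ≤
          ε * H then 0 else p v) ≤ ε'
  simp_rw [← hcnt]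
  rcases Nat.eq_zero_or_pos H with hH | hH
  · have : ∑ v ∈ range (2 ^ k), (if cnt v ≤ ε * H then 0 else p v) = 0 := by
      apply sum_eq_zero
      intro v _
      rw [if_pos]
      rw [hcnt, hH]
      simp
    rw [this]
    exact e0.le
  · have hH0 : (0 : ℝ) < H := by exact_mod_cast hH
    have h1 : (∑ v ∈ range (2 ^ k), (if cnt v ≤ ε * H then 0 else p v)) * (ε * H) ≤ ε' * (ε * H) := by
      refine le_trans ?_ hexp
      rw [sum_mul]
      apply sum_le_sum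
      intro v _
      have hc0 : 0 ≤ cnt v := by rw [hcnt]; exact Nat.cast_nonneg _
      split_ifs with hv
      · rw [zero_mul]
        exact mul_nonneg (hp0 v) hc0
      · push Not at hv
        exact mul_le_mul_of_nonneg_left hv.le (hp0 v)
    exact le_of_mul_le_mul_right h1 (by positivity)

end Pool.Agent.Run7.h582.MC
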